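import Pool.Agent.Lib.MP_b0e80c_an.Final

set_option autoImplicit false

/-!
A negative answer to Q1: a second countable (totally disconnected) locally compact group `G` with
a point `z` of its Furstenberg boundary whose stabilizer is trivial, so that `z` is a continuity
point of the stabilizer map, and whose reduced group C*-algebra is not simple.

The group is a union of open subgroups `G_n`, where `G_n` is a compact open normal elementary
abelian 2-group extended by a countable group `T_n`, and
`T_{n+1} = (⊕_F ℤ/2) ⋊ (F ⋊ T_n)` with `F` the free group on `T_n × ℕ`.  The free groups give
enough strongly proximal behaviour to have a point of the Furstenberg boundary with trivial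
stabilizer (Baire category), while an open locally elliptic subgroup `P` with a parity character
`P → {1,-1}` which is nontrivial on `P ∩ h⁻¹ L h` for every `h` (with `L` a fixed compact open
abelian subgroup) gives almost invariant vectors showing that the projection attached to `L`
generates a proper ideal.
-/

namespace Pool.Agent.Results.MP_b0e80c_an.FreePointNotSimple

open MeasureTheory Pool.Agent.Lib.MP_b0e80c_an

theorem result :
    ∃ (G : Type) (_ : Group G) (_ : TopologicalSpace G) (_ : IsTopologicalGroup G)
      (_ : LocallyCompactSpace G) (_ : T2Space G) (_ : SecondCountableTopology G)
      (_ : MeasurableSpace G) (_ : BorelSpace G)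
      (X : Type) (_ : TopologicalSpace X) (_ : CompactSpace X) (_ : T2Space X)
      (_ : MeasurableSpace X) (_ : BorelSpace X) (_ : MulAction G X) (_ : ContinuousSMul G X)
      (z : X),
      IsFurstenbergBoundary G X ∧
      ContinuousAt (stabilizerMap G X) z ∧
      MulAction.stabilizer G z = ⊥ ∧
      ¬ QuasiRegularSimple (MulAction.stabilizer G z) ∧
      ¬ ReducedSimple G :=
  QReg.main

end Pool.Agent.Results.MP_b0e80c_an.FreePointNotSimple
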